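import Mathlib

set_option autoImplicit false

/-!
# Harmonic spheres inside open sets without closed geodesics

For every `k ≥ 2` the (generalised) Veronese map `x ↦ c (x xᵀ - I / (k+1))` is a non-constant harmonic
map from the round `S^k` to a round sphere, and its image lies in an open set which contains no closed
geodesic (a great circle contains antipodal points, while the open set `{A | 0 < tr A^3}` does not).
-/

namespace Pool.Agent.Results.MP_a699c4_gt.HarmonicSphereNoGeodesic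

open Metric
open scoped Manifold ContDiff RealInnerProductSpace

noncomputable section

/-- The round unit sphere `S^n` in `ℝ^{n+1}`, with Mathlib's smooth structure. -/
abbrev Sph (n : ℕ) : Type := sphere (0 : EuclideanSpace ℝ (Fin (n + 1))) 1

/-- The covariant acceleration `D/dt γ'` at time `t` of a curve `γ` in the round unit sphere `S^n`:
the orthogonal projection of the second derivative of `γ`, taken in `ℝ^{n+1}`, to the tangent space
`γ(t)^⟂` of the sphere at `γ(t)`. -/
def covAccel {n : ℕ} (γ : ℝ → Sph n) (t : ℝ) : EuclideanSpace ℝ (Fin (n + 1)) :=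
  let a := deriv (deriv fun s => (γ s : EuclideanSpace ℝ (Fin (n + 1)))) t
  a - ⟪(γ t : EuclideanSpace ℝ (Fin (n + 1))), a⟫ • (γ t : EuclideanSpace ℝ (Fin (n + 1)))

/-- A geodesic `ℝ → S^n` of the round unit sphere: a smooth curve with vanishing covariant
acceleration. -/
def IsGeodesic {n : ℕ} (γ : ℝ → Sph n) : Prop :=
  ContMDiff 𝓘(ℝ, ℝ) (𝓡 n) ∞ γ ∧ ∀ t, covAccel γ t = 0

/-- A subset `V` of the round unit sphere `S^n` has no closed geodesics: there is no non-constant
periodic geodesic `ℝ → S^n` with image contained in `V`. -/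
def NoClosedGeodesics {n : ℕ} (V : Set (Sph n)) : Prop :=
  ¬ ∃ γ : ℝ → Sph n, IsGeodesic γ ∧ (∃ T : ℝ, 0 < T ∧ ∀ t, γ (t + T) = γ t) ∧
      (∃ s t, γ s ≠ γ t) ∧ ∀ t, γ t ∈ V

/-- The unit speed great circle `t ↦ cos t • x + sin t • v` through `x ∈ S^k` with unit initial
velocity `v ⟂ x`; this is the geodesic of the round sphere with these initial data. -/
def greatCircle {k : ℕ} (x : Sph k) (v : EuclideanSpace ℝ (Fin (k + 1))) (hv : ‖v‖ = 1)
    (hxv : ⟪(x : EuclideanSpace ℝ (Fin (k + 1))), v⟫ = 0) (t : ℝ) : Sph k :=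
  ⟨Real.cos t • (x : EuclideanSpace ℝ (Fin (k + 1))) + Real.sin t • v, by
    have hx : ‖(x : EuclideanSpace ℝ (Fin (k + 1)))‖ = 1 := mem_sphere_zero_iff_norm.1 x.2
    rw [mem_sphere_zero_iff_norm]
    have h : ‖Real.cos t • (x : EuclideanSpace ℝ (Fin (k + 1))) + Real.sin t • v‖ ^ 2 = 1 := by
      rw [norm_add_sq_real, norm_smul, norm_smul, hx, hv, inner_smul_left, inner_smul_right, hxv]
      simp
    have h0 := norm_nonneg (Real.cos t • (x : EuclideanSpace ℝ (Fin (k + 1))) + Real.sin t • v)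
    nlinarith⟩

/-- A harmonic map `φ` from the round sphere `S^k` to the round sphere `S^n`: `φ` is smooth and its
tension field `τ(φ) = tr ∇dφ` vanishes.  For an orthonormal basis `e` of the tangent space
`x^⟂` of `S^k` at `x`, the vector `∇dφ(e_i, e_i)` is the covariant acceleration at time `0` of the
image under `φ` of the geodesic of `S^k` through `x` with initial velocity `e_i`. -/
def IsHarmonic {k n : ℕ} (φ : Sph k → Sph n) : Prop :=
  ContMDiff (𝓡 k) (𝓡 n) ∞ φ ∧
    ∀ (x : Sph k) (e : Fin k → EuclideanSpace ℝ (Fin (k + 1))) (he : Orthonormal ℝ e)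
      (hx : ∀ i, ⟪(x : EuclideanSpace ℝ (Fin (k + 1))), e i⟫ = 0),
      ∑ i, covAccel (fun t => φ (greatCircle x (e i) (he.1 i) (hx i) t)) 0 = 0

/-! ### A non-constant geodesic of a round sphere passes through antipodal points -/

theorem antipode {F : Type*} [NormedAddCommGroup F] [InnerProductSpace ℝ F]
    (c c' c'' : ℝ → F) (h1 : ∀ t, HasDerivAt c (c' t) t) (h2 : ∀ t, HasDerivAt c' (c'' t) t)
    (hn : ∀ t, ⟪c t, c t⟫ = 1) (hg : ∀ t, c'' t - ⟪c t, c'' t⟫ • c t = 0)
    (hne : ∃ s t, c s ≠ c t) : ∃ s t, c s = - c t := by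
  have e1 : ∀ t, ⟪c t, c' t⟫ = 0 := by
    intro t
    have h := (h1 t).inner ℝ (h1 t)
    have h' : HasDerivAt (fun t => ⟪c t, c t⟫) 0 t := by
      have : (fun t => ⟪c t, c t⟫) = fun _ => (1:ℝ) := funext hn
      rw [this]; exact hasDerivAt_const t 1
    have := h.unique h'
    rw [real_inner_comm (c t) (c' t)] at this
    linarith
  have e2 : ∀ t, ⟪c t, c'' t⟫ = - ⟪c' t, c' t⟫ := by
    intro t
    have h := (h1 t).inner ℝ (h2 t)
    have h' : HasDerivAt (fun t => ⟪c t, c' t⟫) 0 t := by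
      have : (fun t => ⟪c t, c' t⟫) = fun _ => (0:ℝ) := funext e1
      rw [this]; exact hasDerivAt_const t 0
    have := h.unique h'
    linarith
  have e3 : ∀ t, c'' t = -(⟪c' t, c' t⟫ • c t) := by
    intro t
    have := hg t
    rw [e2 t] at this
    rw [sub_eq_zero] at this
    rw [this, neg_smul]
  have e4 : ∀ t, HasDerivAt (fun t => ⟪c' t, c' t⟫) 0 t := by
    intro t
    have h := (h2 t).inner ℝ (h2 t)
    have h0 : ⟪c' t, c'' t⟫ + ⟪c'' t, c' t⟫ = 0 := by
      rw [e3 t, inner_neg_right, inner_neg_left, inner_smul_right, inner_smul_left,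
        real_inner_comm (c t) (c' t), e1 t]
      simp
    rwa [h0] at h
  have e5 : ∀ t, ⟪c' t, c' t⟫ = ⟪c' 0, c' 0⟫ := by
    intro t
    exact is_const_of_deriv_eq_zero (fun t => (e4 t).differentiableAt) (fun t => (e4 t).deriv) t 0
  by_cases hw : ⟪c' 0, c' 0⟫ = 0
  · exfalso
    obtain ⟨s, t, hst⟩ := hne
    have hc' : ∀ t, c' t = 0 := fun t => inner_self_eq_zero.1 ((e5 t).trans hw)
    exact hst (is_const_of_deriv_eq_zero (fun t => (h1 t).differentiableAt)
      (fun t => by rw [(h1 t).deriv, hc' t]) s t)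
  · have hw' : 0 < ⟪c' 0, c' 0⟫ := lt_of_le_of_ne real_inner_self_nonneg (Ne.symm hw)
    set w := Real.sqrt ⟪c' 0, c' 0⟫ with hwdef
    have hwpos : 0 < w := Real.sqrt_pos.2 hw'
    have hww : w * w = ⟪c' 0, c' 0⟫ := Real.mul_self_sqrt hw'.le
    have hu : ∀ t, HasDerivAt
        (fun t => Real.cos (w * t) • c t - (Real.sin (w * t) / w) • c' t) 0 t := by
      intro t
      have hcos : HasDerivAt (fun t => Real.cos (w * t)) (-Real.sin (w * t) * w) t := by
        have := ((hasDerivAt_id t).const_mul w).cos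
        simpa using this
      have hsin : HasDerivAt (fun t => Real.sin (w * t) / w) (Real.cos (w * t) * w / w) t := by
        have := (((hasDerivAt_id t).const_mul w).sin).div_const w
        simpa using this
      have h := (hcos.smul (h1 t)).sub (hsin.smul (h2 t))
      have h0 : Real.cos (w * t) • c' t + (-Real.sin (w * t) * w) • c t -
          ((Real.sin (w * t) / w) • c'' t + (Real.cos (w * t) * w / w) • c' t) = 0 := by
        rw [e3 t, e5 t, ← hww]
        have : Real.cos (w * t) * w / w = Real.cos (w * t) := by field_simp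
        rw [this, smul_neg, smul_smul]
        have h3 : Real.sin (w * t) / w * (w * w) = Real.sin (w * t) * w := by field_simp
        rw [h3]
        module
      rw [h0] at h
      exact h
    have hconst := is_const_of_deriv_eq_zero (fun t => (hu t).differentiableAt)
      (fun t => (hu t).deriv) (Real.pi / w) 0
    have h4 : w * (Real.pi / w) = Real.pi := by field_simp
    simp only [h4, Real.cos_pi, Real.sin_pi, mul_zero, Real.cos_zero, Real.sin_zero, zero_div,
      zero_smul, sub_zero, one_smul, neg_smul] at hconst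
    exact ⟨0, Real.pi / w, hconst.symm⟩

theorem IsGeodesic.antipode {n : ℕ} {γ : ℝ → Sph n} (hγ : IsGeodesic γ)
    (hne : ∃ s t, γ s ≠ γ t) :
    ∃ s t, (γ s : EuclideanSpace ℝ (Fin (n + 1))) = - (γ t : EuclideanSpace ℝ (Fin (n + 1))) := by
  obtain ⟨hs, hg⟩ := hγ
  have hc : ContDiff ℝ ∞ fun s => (γ s : EuclideanSpace ℝ (Fin (n + 1))) := by
    have := Fact.mk (finrank_euclideanSpace_fin (𝕜 := ℝ) (n := n + 1))
    have h := (contMDiff_coe_sphere (E := EuclideanSpace ℝ (Fin (n + 1))) (n := n) (m := ∞)).comp hs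
    exact h.contDiff
  have hd : ContDiff ℝ ∞ (deriv fun s => (γ s : EuclideanSpace ℝ (Fin (n + 1)))) := by
    exact (contDiff_infty_iff_deriv.1 hc).2
  refine HarmonicSphereNoGeodesic.antipode _ _ _
    (fun t => (hc.differentiable (by simp) t).hasDerivAt)
    (fun t => (hd.differentiable (by simp) t).hasDerivAt) ?_ hg ?_
  · intro t
    rw [real_inner_self_eq_norm_sq, mem_sphere_zero_iff_norm.1 (γ t).2]
    norm_num
  · obtain ⟨s, t, hst⟩ := hne
    exact ⟨s, t, fun h => hst (Subtype.ext h)⟩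

/-! ### The generalised Veronese map -/

section Veronese

variable {k n : ℕ} (hn : (k + 1) * (k + 1) = n + 1)

/-- Indexing of the entries of a `(k+1) × (k+1)` matrix. -/
def idx : Fin (k + 1) × Fin (k + 1) ≃ Fin (n + 1) :=
  finProdFinEquiv.trans (finCongr hn)

/-- The matrix `u vᵀ` as a vector. -/
def Q (u v : EuclideanSpace ℝ (Fin (k + 1))) : EuclideanSpace ℝ (Fin (n + 1)) :=
  WithLp.toLp 2 fun p => u ((idx hn).symm p).1 * v ((idx hn).symm p).2

/-- The identity matrix as a vector. -/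
def I0 : EuclideanSpace ℝ (Fin (n + 1)) :=
  WithLp.toLp 2 fun p => if ((idx hn).symm p).1 = ((idx hn).symm p).2 then 1 else 0

theorem inner_eq_sum {n : ℕ} (x y : EuclideanSpace ℝ (Fin n)) : ⟪x, y⟫ = ∑ i, x i * y i := by
  rw [PiLp.inner_apply]; simp [mul_comm]

theorem sum_idx (f : Fin (k + 1) → Fin (k + 1) → ℝ) :
    ∑ p, f ((idx hn).symm p).1 ((idx hn).symm p).2 = ∑ i, ∑ j, f i j := by
  rw [← Fintype.sum_prod_type' (f := f)]
  exact Equiv.sum_comp (idx hn).symm (fun q : Fin (k+1) × Fin (k+1) => f q.1 q.2)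

theorem inner_QQ (u v u' v' : EuclideanSpace ℝ (Fin (k + 1))) :
    ⟪Q hn u v, Q hn u' v'⟫ = ⟪u, u'⟫ * ⟪v, v'⟫ := by
  rw [inner_eq_sum, inner_eq_sum, inner_eq_sum]
  simp only [Q]
  rw [sum_idx hn (fun i j => u i * v j * (u' i * v' j)), Finset.sum_mul_sum]
  refine Finset.sum_congr rfl fun i _ => Finset.sum_congr rfl fun j _ => by ring

theorem inner_QI (u v : EuclideanSpace ℝ (Fin (k + 1))) : ⟪Q hn u v, I0 hn⟫ = ⟪u, v⟫ := by
  rw [inner_eq_sum, inner_eq_sum]
  simp only [Q, I0]
  rw [sum_idx hn (fun i j => u i * v j * (if i = j then 1 else 0))]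
  refine Finset.sum_congr rfl fun i _ => ?_
  simp

theorem inner_II : ⟪I0 hn, I0 hn⟫ = (k : ℝ) + 1 := by
  rw [inner_eq_sum]
  simp only [I0]
  rw [sum_idx hn (fun i j => (if i = j then (1:ℝ) else 0) * (if i = j then 1 else 0))]
  simp

/-- The normalising constant. -/
def C (k : ℕ) : ℝ := Real.sqrt (((k : ℝ) + 1) / k)

theorem C_sq {k : ℕ} (hk : 0 < k) : C k * C k = ((k : ℝ) + 1) / k :=
  Real.mul_self_sqrt (by positivity)

theorem C_pos {k : ℕ} (hk : 0 < k) : 0 < C k := by
  apply Real.sqrt_pos.2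
  have : (0:ℝ) < k := by exact_mod_cast hk
  positivity

/-- The Veronese map `x ↦ C (x xᵀ - I / (k+1))`. -/
def ver (x : EuclideanSpace ℝ (Fin (k + 1))) : EuclideanSpace ℝ (Fin (n + 1)) :=
  C k • (Q hn x x - (1 / ((k : ℝ) + 1)) • I0 hn)

theorem norm_ver (hk : 0 < k) (x : EuclideanSpace ℝ (Fin (k + 1))) (hx : ⟪x, x⟫ = 1) :
    ⟪ver hn x, ver hn x⟫ = 1 := by
  have hk' : (0:ℝ) < k := by exact_mod_cast hk
  rw [ver, inner_smul_left, inner_smul_right, inner_sub_left, inner_sub_right, inner_sub_right,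
    inner_smul_left, inner_smul_right, inner_smul_right, inner_QQ, inner_QI,
    real_inner_comm (Q hn x x) (I0 hn), inner_QI, inner_smul_left, inner_II, hx]
  simp only [conj_trivial]
  rw [← mul_assoc, C_sq hk]
  field_simp
  ring

theorem Q_smul_add (a b : ℝ) (x v : EuclideanSpace ℝ (Fin (k + 1))) :
    Q hn (a • x + b • v) (a • x + b • v) =
      (a ^ 2) • Q hn x x + (a * b) • (Q hn x v + Q hn v x) + (b ^ 2) • Q hn v v := by
  ext p
  simp [Q]
  ring

theorem contDiff_ver : ContDiff ℝ ∞ (ver hn) := by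
  rw [contDiff_euclidean]
  intro p
  simp only [ver, Q, I0]
  have h1 : ContDiff ℝ ∞ fun x : EuclideanSpace ℝ (Fin (k + 1)) => x ((idx hn).symm p).1 :=
    contDiff_euclidean.1 contDiff_id _
  have h2 : ContDiff ℝ ∞ fun x : EuclideanSpace ℝ (Fin (k + 1)) => x ((idx hn).symm p).2 :=
    contDiff_euclidean.1 contDiff_id _
  simpa using contDiff_const.mul ((h1.mul h2).sub contDiff_const)

/-- Completeness of the orthonormal family consisting of `x` and the `e i`. -/
theorem complete (x : EuclideanSpace ℝ (Fin (k + 1))) (hx : ⟪x, x⟫ = 1)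
    (e : Fin k → EuclideanSpace ℝ (Fin (k + 1)))
    (he : Orthonormal ℝ e) (hxe : ∀ i, ⟪x, e i⟫ = 0) :
    Q hn x x + ∑ i, Q hn (e i) (e i) = I0 hn := by
  classical
  let U : Matrix (Fin (k + 1)) (Fin (k + 1)) ℝ :=
    Matrix.of (Fin.cons (fun a => x a) fun i a => e i a)
  have hU : U * U.transpose = 1 := by
    ext a b
    rw [Matrix.mul_apply]
    simp only [Matrix.transpose_apply]
    refine Fin.cases ?_ (fun a => ?_) a <;> refine Fin.cases ?_ (fun b => ?_) b
    · rw [inner_eq_sum] at hx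
      simpa [U] using hx
    · simpa [U, inner_eq_sum, Matrix.one_apply, (Fin.succ_ne_zero b).symm] using hxe b
    · have := hxe a
      rw [real_inner_comm] at this
      simpa [U, inner_eq_sum, Matrix.one_apply, (Fin.succ_ne_zero a)] using this
    · have := (orthonormal_iff_ite.1 he) a b
      simpa [U, inner_eq_sum, Matrix.one_apply] using this
  have hU' : U.transpose * U = 1 := mul_eq_one_comm.1 hU
  ext p
  have h := congrFun (congrFun hU' ((idx hn).symm p).1) ((idx hn).symm p).2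
  rw [Matrix.mul_apply, Fin.sum_univ_succ] at h
  simp only [Matrix.transpose_apply, Matrix.one_apply] at h
  simpa [U, Q, I0] using h

theorem inner_self_sph {n : ℕ} (x : Sph n) :
    ⟪(x : EuclideanSpace ℝ (Fin (n + 1))), (x : EuclideanSpace ℝ (Fin (n + 1)))⟫ = 1 := by
  rw [real_inner_self_eq_norm_sq, mem_sphere_zero_iff_norm.1 x.2]
  norm_num

theorem ver_mem (hk : 0 < k) (x : Sph k) :
    ver hn (x : EuclideanSpace ℝ (Fin (k + 1))) ∈
      sphere (0 : EuclideanSpace ℝ (Fin (n + 1))) 1 := by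
  rw [mem_sphere_zero_iff_norm]
  have h := norm_ver hn hk x (inner_self_sph x)
  rw [real_inner_self_eq_norm_sq] at h
  have h0 := norm_nonneg (ver hn (x : EuclideanSpace ℝ (Fin (k + 1))))
  nlinarith

/-- The Veronese map as a map of spheres. -/
def verS (hk : 0 < k) : Sph k → Sph n :=
  Set.codRestrict (fun x : Sph k => ver hn (x : EuclideanSpace ℝ (Fin (k + 1)))) _
    (fun x => ver_mem hn hk x)

theorem contMDiff_verS (hk : 0 < k) : ContMDiff (𝓡 k) (𝓡 n) ∞ (verS hn hk) := by
  have h1 := Fact.mk (finrank_euclideanSpace_fin (𝕜 := ℝ) (n := n + 1))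
  have h2 := Fact.mk (finrank_euclideanSpace_fin (𝕜 := ℝ) (n := k + 1))
  exact ContMDiff.codRestrict_sphere (n := n)
    ((contDiff_ver hn).contMDiff.comp (contMDiff_coe_sphere (n := k))) (fun x => ver_mem hn hk x)

/-- Second derivative at `0` of `cos² s • a + cos s sin s • b + sin² s • d + e`. -/
theorem deriv_deriv_quad {F : Type*} [NormedAddCommGroup F] [NormedSpace ℝ F] (a b d e : F) :
    deriv (deriv fun s : ℝ => (Real.cos s ^ 2) • a + (Real.cos s * Real.sin s) • b +
      (Real.sin s ^ 2) • d + e) 0 = (2 : ℝ) • d - (2 : ℝ) • a := by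
  have h1 : ∀ s : ℝ, HasDerivAt (fun s : ℝ => (Real.cos s ^ 2) • a +
      (Real.cos s * Real.sin s) • b + (Real.sin s ^ 2) • d + e)
      ((-2 * Real.cos s * Real.sin s) • a + (Real.cos s ^ 2 - Real.sin s ^ 2) • b +
        (2 * Real.sin s * Real.cos s) • d) s := by
    intro s
    have hc := Real.hasDerivAt_cos s
    have hs := Real.hasDerivAt_sin s
    have h := (((hc.pow 2).smul_const a).add ((hc.mul hs).smul_const b)).add
      ((hs.pow 2).smul_const d) |>.add_const e
    refine h.congr_deriv ?_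
    norm_num
    module
  have h2 : deriv (fun s : ℝ => (Real.cos s ^ 2) • a +
      (Real.cos s * Real.sin s) • b + (Real.sin s ^ 2) • d + e) =
      fun s => (-2 * Real.cos s * Real.sin s) • a + (Real.cos s ^ 2 - Real.sin s ^ 2) • b +
        (2 * Real.sin s * Real.cos s) • d := funext fun s => (h1 s).deriv
  rw [h2]
  have hc := Real.hasDerivAt_cos 0
  have hs := Real.hasDerivAt_sin 0
  have h := ((((hc.const_mul (-2)).mul hs).smul_const a).add
    (((hc.pow 2).sub (hs.pow 2)).smul_const b)).add (((hs.const_mul 2).mul hc).smul_const d)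
  have h' := h.deriv
  simp only [Real.cos_zero, Real.sin_zero] at h'
  refine Eq.trans h' ?_
  norm_num
  module

theorem covAccel_ver (hk : 0 < k) (x : Sph k) (v : EuclideanSpace ℝ (Fin (k + 1)))
    (hv : ‖v‖ = 1) (hxv : ⟪(x : EuclideanSpace ℝ (Fin (k + 1))), v⟫ = 0) :
    covAccel (fun t => verS hn hk (greatCircle x v hv hxv t)) 0 =
      C k • ((2:ℝ) • Q hn v v - (2:ℝ) • Q hn x x) -
      ⟪ver hn (x : EuclideanSpace ℝ (Fin (k + 1))),
        C k • ((2:ℝ) • Q hn v v - (2:ℝ) • Q hn x x)⟫ •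
        ver hn (x : EuclideanSpace ℝ (Fin (k + 1))) := by
  have h : (fun s => (verS hn hk (greatCircle x v hv hxv s) :
      EuclideanSpace ℝ (Fin (n + 1)))) = fun s : ℝ =>
      (Real.cos s ^ 2) • (C k • Q hn x x) + (Real.cos s * Real.sin s) •
        (C k • (Q hn x v + Q hn v x)) + (Real.sin s ^ 2) • (C k • Q hn v v) +
        (-(C k • (1 / ((k : ℝ) + 1)) • I0 hn)) := by
    funext s
    simp only [verS, Set.val_codRestrict_apply, greatCircle, ver, Q_smul_add]
    module
  have h0 : (verS hn hk (greatCircle x v hv hxv 0) : EuclideanSpace ℝ (Fin (n + 1))) =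
      ver hn (x : EuclideanSpace ℝ (Fin (k + 1))) := by
    simp [verS, greatCircle]
  have ha : deriv (deriv fun s => (verS hn hk (greatCircle x v hv hxv s) :
      EuclideanSpace ℝ (Fin (n + 1)))) 0 = C k • ((2:ℝ) • Q hn v v - (2:ℝ) • Q hn x x) := by
    rw [h, deriv_deriv_quad]
    module
  simp only [covAccel]
  rw [ha, h0]

theorem isHarmonic_verS (hk : 0 < k) : IsHarmonic (verS hn hk) := by
  refine ⟨contMDiff_verS hn hk, ?_⟩
  intro x e he hx
  simp only [covAccel_ver]
  rw [Finset.sum_sub_distrib, ← Finset.sum_smul, ← inner_sum]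
  have hc := complete hn (x : EuclideanSpace ℝ (Fin (k + 1))) (inner_self_sph x) e he hx
  have hc' : ∑ i, Q hn (e i) (e i) = I0 hn - Q hn x x := eq_sub_of_add_eq' hc
  have hs : ∑ i, C k • ((2:ℝ) • Q hn (e i) (e i) - (2:ℝ) • Q hn x x) =
      (-(2 * ((k : ℝ) + 1))) • ver hn (x : EuclideanSpace ℝ (Fin (k + 1))) := by
    rw [← Finset.smul_sum, Finset.sum_sub_distrib, ← Finset.smul_sum, Finset.sum_const,
      Finset.card_univ, Fintype.card_fin, hc', ver]
    have hk' : ((k : ℝ) + 1) ≠ 0 := by positivity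
    have hI : (2:ℝ) • I0 hn = (2 * ((k : ℝ) + 1)) • ((1 / ((k : ℝ) + 1)) • I0 hn) := by
      rw [smul_smul]
      congr 1
      field_simp
    rw [smul_sub (2:ℝ) (I0 hn), hI, ← Nat.cast_smul_eq_nsmul ℝ]
    module
  rw [hs, inner_smul_right, norm_ver hn hk _ (inner_self_sph x)]
  simp

/-- The matrix with the entries of the vector `A`. -/
def Mat (A : EuclideanSpace ℝ (Fin (n + 1))) : Matrix (Fin (k + 1)) (Fin (k + 1)) ℝ :=
  Matrix.of fun i j => A (idx hn (i, j))

/-- The open set of all points `A` of the sphere with `0 < tr A^3`. -/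
def VV : Set (Sph n) :=
  {A | 0 < (Mat hn (A : EuclideanSpace ℝ (Fin (n + 1))) ^ 3).trace}

theorem isOpen_VV : IsOpen (VV hn) := by
  have : Continuous fun A : Sph n =>
      (Mat hn (A : EuclideanSpace ℝ (Fin (n + 1))) ^ 3).trace := by
    apply Continuous.matrix_trace
    apply Continuous.pow
    apply continuous_matrix
    intro i j
    simp only [Mat, Matrix.of_apply]
    fun_prop
  exact isOpen_lt continuous_const this

theorem Mat_neg (A : EuclideanSpace ℝ (Fin (n + 1))) : Mat hn (-A) = - Mat hn A := by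
  ext i j
  simp [Mat]

theorem noClosedGeodesics_VV : NoClosedGeodesics (VV hn) := by
  rintro ⟨γ, hγ, -, hne, hV⟩
  obtain ⟨s, t, hst⟩ := hγ.antipode hne
  have h1 := hV s
  have h2 := hV t
  simp only [VV, Set.mem_ofPred_eq] at h1 h2
  rw [hst, Mat_neg, Odd.neg_pow (by decide), Matrix.trace_neg] at h1
  linarith

theorem Mat_ver (x : EuclideanSpace ℝ (Fin (k + 1))) :
    Mat hn (ver hn x) = C k • (Matrix.vecMulVec (fun i => x i) (fun i => x i) -
      (1 / ((k : ℝ) + 1)) • (1 : Matrix (Fin (k + 1)) (Fin (k + 1)) ℝ)) := by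
  ext i j
  simp [Mat, ver, Q, I0, Matrix.vecMulVec_apply, Matrix.one_apply]

theorem ver_mem_VV (hk : 2 ≤ k) (x : Sph k) : verS hn (by omega) x ∈ VV hn := by
  simp only [VV, Set.mem_ofPred_eq, verS, Set.val_codRestrict_apply]
  rw [Mat_ver]
  set P : Matrix (Fin (k + 1)) (Fin (k + 1)) ℝ := Matrix.vecMulVec
    (fun i => (x : EuclideanSpace ℝ (Fin (k + 1))) i)
    (fun i => (x : EuclideanSpace ℝ (Fin (k + 1))) i) with hP
  have hx := inner_self_sph x
  rw [inner_eq_sum] at hx
  have hPP : P * P = P := by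
    ext i j
    rw [Matrix.mul_apply]
    simp only [hP, Matrix.vecMulVec_apply]
    calc _ = x.1 i * (∑ l, x.1 l * x.1 l) * x.1 j := by
          rw [Finset.mul_sum, Finset.sum_mul]
          exact Finset.sum_congr rfl fun l _ => by ring
      _ = _ := by rw [hx]; ring
  have htr : P.trace = 1 := by
    simpa [Matrix.trace, hP, Matrix.vecMulVec_apply] using hx
  have hm : (0:ℝ) < (k:ℝ) + 1 := by positivity
  set q : ℝ := 1 / ((k : ℝ) + 1) with hq
  have hcube : (P - q • (1 : Matrix (Fin (k + 1)) (Fin (k + 1)) ℝ)) ^ 3 =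
      (1 - 3 * q + 3 * q ^ 2) • P - (q ^ 3) • (1 : Matrix (Fin (k + 1)) (Fin (k + 1)) ℝ) := by
    have h2 : (P - q • (1 : Matrix (Fin (k + 1)) (Fin (k + 1)) ℝ)) ^ 2 =
        (1 - 2 * q) • P + (q ^ 2) • (1 : Matrix (Fin (k + 1)) (Fin (k + 1)) ℝ) := by
      rw [pow_two, sub_mul, mul_sub, mul_sub, hPP]
      simp only [Matrix.smul_mul, Matrix.mul_smul, one_mul, mul_one]
      module
    rw [pow_succ, h2, mul_sub, add_mul]
    simp only [Matrix.smul_mul, Matrix.mul_smul, one_mul, mul_one, hPP]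
    module
  rw [smul_pow, Matrix.trace_smul, hcube, Matrix.trace_sub, Matrix.trace_smul, Matrix.trace_smul,
    htr, Matrix.trace_one, Fintype.card_fin]
  have hC : 0 < C k ^ 3 := pow_pos (C_pos (by omega)) 3
  rw [smul_eq_mul, smul_eq_mul, smul_eq_mul]
  apply mul_pos hC
  have hq1 : q * ((k:ℝ) + 1) = 1 := by rw [hq]; field_simp
  have hk2 : (2:ℝ) ≤ k := by exact_mod_cast hk
  have hqpos : 0 < q := by positivity
  have hq3 : q * 3 ≤ 1 := by nlinarith
  push_cast
  have : (1 - 3 * q + 3 * q ^ 2) * 1 - q ^ 3 * ((k:ℝ) + 1) = (1 - q) * (1 - 2 * q) := by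
    have : q ^ 3 * ((k:ℝ) + 1) = q ^ 2 * (q * ((k:ℝ) + 1)) := by ring
    rw [this, hq1]; ring
  rw [this]
  apply mul_pos <;> linarith

end Veronese

theorem verS_ne {k n : ℕ} (hn : (k + 1) * (k + 1) = n + 1) (hk : 2 ≤ k) :
    ∃ x y, verS hn (by omega) x ≠ verS hn (by omega) y := by
  let e0 : Sph k := ⟨EuclideanSpace.single 0 1, by simp⟩
  let e1 : Sph k := ⟨EuclideanSpace.single (Fin.last k) 1, by simp⟩
  refine ⟨e0, e1, fun h => ?_⟩
  have h' := congrArg (fun A : Sph n => Mat hn (A : EuclideanSpace ℝ (Fin (n + 1))) 0 0) h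
  simp only [verS, Set.val_codRestrict_apply, Mat_ver, e0, e1] at h'
  have hC := C_pos (k := k) (by omega)
  have h0 : (0 : Fin (k + 1)) ≠ Fin.last k := by
    intro h
    have := congrArg Fin.val h
    simp at this
    omega
  simp [Matrix.vecMulVec_apply, h0] at h'
  have : C k = 0 := by linarith
  exact hC.ne' this

theorem result : ∀ k : ℕ, 2 ≤ k → ∃ (n : ℕ) (V : Set (Sph n)), IsOpen V ∧ NoClosedGeodesics V ∧
    ∃ φ : Sph k → Sph n, IsHarmonic φ ∧ (∃ x y, φ x ≠ φ y) ∧ ∀ x, φ x ∈ V := by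
  intro k hk
  have hn : (k + 1) * (k + 1) = (k * k + 2 * k) + 1 := by ring
  exact ⟨k * k + 2 * k, VV hn, isOpen_VV hn, noClosedGeodesics_VV hn, verS hn (by omega),
    isHarmonic_verS hn (by omega), verS_ne hn hk, ver_mem_VV hn hk⟩

end

end Pool.Agent.Results.MP_a699c4_gt.HarmonicSphereNoGeodesic
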